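import Pool.Agent.TH346.CG.Defs
import Pool.Agent.H217R3.AK.Bsg

set_option autoImplicit false

open Finset
open scoped Pointwise

namespace Pool.Agent.TH879.CG

open Pool.Agent.TH346.CG

/-! ### elementary facts -/

lemma ks_neg {Γ : Type} [AddCommGroup Γ] [DecidableEq Γ] {D : Finset Γ} (hD : -D = D) :
    ∀ k : ℕ, -(ks k D) = ks k D
  | 0 => by simp [ks]
  | k + 1 => by
      show -(ks k D + D) = ks k D + D
      rw [neg_add, ks_neg hD k, hD]

lemma sub_neg_self {Γ : Type} [AddCommGroup Γ] [DecidableEq Γ] (B : Finset Γ) :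
    -(B - B) = B - B := by rw [neg_sub]

lemma ks_mono {Γ : Type} [AddCommGroup Γ] [DecidableEq Γ] {D : Finset Γ} (h0 : (0 : Γ) ∈ D)
    {k k' : ℕ} (h : k ≤ k') : ks k D ⊆ ks k' D := by
  induction h with
  | refl => exact Subset.refl _
  | step h ih =>
    refine ih.trans fun x hx => ?_
    show x ∈ ks _ D + D
    exact mem_add.2 ⟨x, hx, 0, h0, add_zero x⟩

lemma zero_mem_sub_self {Γ : Type} [AddCommGroup Γ] [DecidableEq Γ] {B : Finset Γ}
    (h : B.Nonempty) : (0 : Γ) ∈ B - B := by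
  obtain ⟨b, hb⟩ := h
  exact mem_sub.2 ⟨b, hb, b, hb, sub_self b⟩

lemma ks_one {Γ : Type} [AddCommGroup Γ] [DecidableEq Γ] (D : Finset Γ) : ks 1 D = D := by
  show ({0} : Finset Γ) + D = D
  ext x
  rw [mem_add]
  constructor
  · rintro ⟨y, hy, z, hz, rfl⟩
    rw [mem_singleton] at hy
    rw [hy, zero_add]; exact hz
  · intro hx
    exact ⟨0, mem_singleton_self 0, x, hx, zero_add x⟩

/-- pigeonhole -/
lemma pig {α ι : Type} [Fintype ι] [Nonempty ι] (T : Finset α) (g : ι → α → Prop)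
    [∀ i, DecidablePred (g i)] (h : ∀ a ∈ T, ∃ i, g i a) :
    ∃ i, T.card ≤ Fintype.card ι * (T.filter (g i)).card := by
  classical
  by_contra hc
  push Not at hc
  have h1 : T.card ≤ ∑ i, (T.filter (g i)).card := by
    calc T.card ≤ (univ.biUnion (fun i => T.filter (g i))).card := by
          apply card_le_card
          intro a ha
          obtain ⟨i, hi⟩ := h a ha
          exact mem_biUnion.2 ⟨i, mem_univ _, mem_filter.2 ⟨ha, hi⟩⟩
      _ ≤ ∑ i, (T.filter (g i)).card := card_biUnion_le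
  have h2 : ∑ i : ι, Fintype.card ι * (T.filter (g i)).card < ∑ _i : ι, T.card :=
    sum_lt_sum_of_nonempty univ_nonempty fun i _ => hc i
  rw [← mul_sum, sum_const, card_univ, smul_eq_mul] at h2
  have h3 : Fintype.card ι * T.card ≤ Fintype.card ι * ∑ i, (T.filter (g i)).card :=
    Nat.mul_le_mul_left _ h1
  omega

/-- the average over one coordinate -/
lemma avg {Γ : Type} [DecidableEq Γ] {M : ℕ} (X : Finset Γ) (i : Fin M) (f : (Fin M → Γ) → ℕ) :
    ∑ a ∈ Fintype.piFinset (fun _ : Fin M => X), ∑ x ∈ X, f (Function.update a i x) =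
      X.card * ∑ a ∈ Fintype.piFinset (fun _ : Fin M => X), f a := by
  have h1 : X.card * ∑ a ∈ Fintype.piFinset (fun _ : Fin M => X), f a =
      ∑ p ∈ Fintype.piFinset (fun _ : Fin M => X) ×ˢ X, f p.1 := by
    rw [sum_product, mul_sum]
    refine sum_congr rfl fun a _ => ?_
    simp
  rw [h1, ← sum_product' (f := fun a x => f (Function.update a i x))]
  refine sum_bij' (fun p _ => (Function.update p.1 i p.2, p.1 i))
    (fun p _ => (Function.update p.1 i p.2, p.1 i)) ?_ ?_ ?_ ?_ ?_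
  · intro p hp
    rw [mem_product, Fintype.mem_piFinset] at hp ⊢
    refine ⟨fun j => ?_, hp.1 i⟩
    by_cases hj : j = i
    · subst hj; simpa using hp.2
    · simpa [hj] using hp.1 j
  · intro p hp
    rw [mem_product, Fintype.mem_piFinset] at hp ⊢
    refine ⟨fun j => ?_, hp.1 i⟩
    by_cases hj : j = i
    · subst hj; simpa using hp.2
    · simpa [hj] using hp.1 j
  · intro p _
    simp
  · intro p _
    simp
  · intro p _
    simp

lemma avg_s {Γ : Type} [AddCommGroup Γ] [DecidableEq Γ] {M : ℕ} (X : Finset Γ) (hX : -X = X)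
    (i : Fin M) (f : (Fin M → Γ) → ℕ) (σ : SignType) (hσ : σ ≠ 0) :
    ∑ a ∈ Fintype.piFinset (fun _ : Fin M => X), ∑ x ∈ X,
        f (Function.update a i ((σ : ℤ) • x)) =
      X.card * ∑ a ∈ Fintype.piFinset (fun _ : Fin M => X), f a := by
  rw [← avg X i f]
  refine sum_congr rfl fun a _ => ?_
  cases σ with
  | zero => exact absurd rfl hσ
  | pos => simp
  | neg =>
    refine sum_bij' (fun x _ => -x) (fun x _ => -x) ?_ ?_ ?_ ?_ ?_
    · intro x hx
      rw [← hX]; exact neg_mem_neg hx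
    · intro x hx
      rw [← hX]; exact neg_mem_neg hx
    · intro x _; simp
    · intro x _; simp
    · intro x _; simp

/-- the signed sum -/
def SS {Γ : Type} [AddCommGroup Γ] {M : ℕ} (ε : Fin M → SignType) (a : Fin M → Γ) : Γ :=
  ∑ i, ((ε i : SignType) : ℤ) • a i

lemma SS_update {Γ : Type} [AddCommGroup Γ] {M : ℕ} (ε : Fin M → SignType) (a : Fin M → Γ)
    (i : Fin M) (x : Γ) :
    SS ε (Function.update a i x) = SS ε a + ((ε i : SignType) : ℤ) • (x - a i) := by
  unfold SS
  rw [← sub_eq_iff_eq_add', ← sum_sub_distrib]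
  rw [sum_eq_single i]
  · simp [smul_sub]
  · intro j _ hj
    simp [hj]
  · intro h; exact absurd (mem_univ i) h

lemma sg_sq {Γ : Type} [AddCommGroup Γ] (σ : SignType) (hσ : σ ≠ 0) (x : Γ) :
    (σ : ℤ) • ((σ : ℤ) • x) = x := by
  cases σ with
  | zero => exact absurd rfl hσ
  | pos => simp
  | neg => simp

/-- existence of a term at least the average -/
lemma ex_avg {α : Type} (T : Finset α) (hT : T.Nonempty) (F : α → ℕ) (n q : ℕ)
    (h : n * T.card ≤ q * ∑ a ∈ T, F a) : ∃ a ∈ T, n ≤ q * F a := by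
  by_contra hc
  push Not at hc
  have h2 : ∑ a ∈ T, q * F a < ∑ _a ∈ T, n := sum_lt_sum_of_nonempty hT fun a ha => hc a ha
  rw [← mul_sum, sum_const, smul_eq_mul, mul_comm T.card n] at h2
  omega

/-- energy from a triple count -/
lemma energy {Γ : Type} [AddCommGroup Γ] [DecidableEq Γ] (X : Finset Γ) (t : Γ) (q : ℕ)
    (h : X.card ^ 3 ≤
      q * (((X ×ˢ X) ×ˢ X).filter (fun p => p.1.1 + p.1.2 + p.2 + t ∈ X)).card) :
    X.card ^ 3 ≤ q * X.addEnergy X := by
  classical
  refine h.trans (Nat.mul_le_mul_left _ ?_)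
  set r : Γ → ℕ := fun s => ((X ×ˢ X).filter (fun p => p.1 + p.2 = s)).card with hr
  set r' : Γ → ℕ := fun s => ((X ×ˢ X).filter (fun p => p.1 - p.2 - t = s)).card with hr'
  have h1 : (((X ×ˢ X) ×ˢ X).filter (fun p => p.1.1 + p.1.2 + p.2 + t ∈ X)).card =
      ∑ s ∈ X + X, r s * r' s := by
    have e1 : (((X ×ˢ X) ×ˢ X).filter (fun p => p.1.1 + p.1.2 + p.2 + t ∈ X)).card =
        ∑ p ∈ X ×ˢ X, r' (p.1 + p.2) := by
      rw [card_filter, sum_product]
      refine sum_congr rfl fun p _ => ?_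
      rw [← card_filter]
      refine card_bij (fun z _ => (p.1 + p.2 + z + t, z)) ?_ ?_ ?_
      · intro z hz
        rw [mem_filter] at hz
        rw [mem_filter, mem_product]
        exact ⟨⟨hz.2, hz.1⟩, by simp only; abel⟩
      · intro z _ z' _ he
        exact (Prod.ext_iff.1 he).2
      · rintro ⟨w, z⟩ hw
        rw [mem_filter, mem_product] at hw
        have e : p.1 + p.2 + z + t = w := by
          rw [← hw.2]; simp only; abel
        refine ⟨z, mem_filter.2 ⟨hw.1.2, ?_⟩, ?_⟩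
        · rw [e]; exact hw.1.1
        · rw [e]
    have e2 : ∑ s ∈ X + X, ∑ p ∈ (X ×ˢ X).filter (fun p => p.1 + p.2 = s), r' (p.1 + p.2) =
        ∑ p ∈ X ×ˢ X, r' (p.1 + p.2) :=
      sum_fiberwise_of_maps_to (fun p hp => by
        rw [mem_product] at hp
        exact add_mem_add hp.1 hp.2) _
    rw [e1, ← e2]
    refine sum_congr rfl fun s _ => ?_
    rw [sum_congr rfl (g := fun _ => r' s) (fun p hp => by rw [(mem_filter.1 hp).2]), sum_const,
      smul_eq_mul]
  have h2 : ∑ s ∈ X + X, r s ^ 2 = X.addEnergy X := (addEnergy_eq_sum_sq' X X).symm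
  have h3 : ∑ s ∈ X + X, r' s ^ 2 ≤ X.addEnergy X := by
    have e1 : ∑ s ∈ X + X, r' s ^ 2 = ((X + X).biUnion (fun s =>
        ((X ×ˢ X).filter (fun p => p.1 - p.2 - t = s)) ×ˢ
          ((X ×ˢ X).filter (fun p => p.1 - p.2 - t = s)))).card := by
      rw [card_biUnion]
      · refine sum_congr rfl fun s _ => ?_
        rw [card_product, sq]
      · intro s _ s' _ hss
        refine disjoint_left.2 ?_
        rintro ⟨p, p'⟩ hp hp'
        rw [mem_product, mem_filter, mem_filter] at hp hp'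
        exact hss (hp.1.2.symm.trans hp'.1.2)
    rw [e1]
    refine card_le_card_of_injOn (fun x => ((x.1.1, x.2.1), (x.2.2, x.1.2))) ?_ ?_
    · rintro ⟨⟨w, z⟩, ⟨w', z'⟩⟩ hx
      simp only [coe_biUnion, Set.mem_iUnion, mem_coe, mem_product, mem_filter] at hx
      obtain ⟨s, _, ⟨⟨hw, hz⟩, h5⟩, ⟨hw', hz'⟩, h6⟩ := hx
      simp only [mem_coe, mem_filter, mem_product]
      refine ⟨⟨⟨hw, hw'⟩, hz', hz⟩, ?_⟩
      have h7 : w - z - t = w' - z' - t := h5.trans h6.symm
      have h8 : w - z = w' - z' := sub_left_injective h7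
      rw [sub_eq_sub_iff_add_eq_add] at h8
      exact h8
    · rintro ⟨⟨w, z⟩, ⟨w', z'⟩⟩ _ ⟨⟨v, y⟩, ⟨v', y'⟩⟩ _ he
      simp only [Prod.mk.injEq] at he ⊢
      obtain ⟨⟨h1, h2⟩, h3, h4⟩ := he
      exact ⟨⟨h1, h4⟩, h2, h3⟩
  have h4 := sum_mul_sq_le_sq_mul_sq (X + X) r r'
  rw [h1]
  rw [h2] at h4
  have h5 : (∑ s ∈ X + X, r s * r' s) ^ 2 ≤ (X.addEnergy X) ^ 2 := by
    rw [sq (X.addEnergy X)]
    exact h4.trans (Nat.mul_le_mul_left _ h3)
  exact (Nat.pow_le_pow_iff_left two_ne_zero).1 h5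

/-- CASE V -/
lemma caseV {Γ : Type} [AddCommGroup Γ] [DecidableEq Γ] {M : ℕ} (X : Finset Γ)
    (hXne : X.Nonempty) (ε : Fin M → SignType) (i : Fin M) (hi : ε i ≠ 0) (D : Finset Γ)
    (hD : -D = D) (p : Γ) (q : ℕ)
    (h : X.card ^ M ≤ q * ((Fintype.piFinset (fun _ : Fin M => X)).filter
      (fun a => SS ε a - p ∈ D)).card) :
    ∃ (B : Finset Γ) (g : Γ), B ⊆ X ∧ X.card ≤ q * B.card ∧ ∀ b ∈ B, b - g ∈ D := by
  classical
  set T := Fintype.piFinset (fun _ : Fin M => X) with hT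
  have hTc : T.card = X.card ^ M := by simp [hT]
  have hTne : T.Nonempty := by
    rw [← card_pos, hTc]; exact pow_pos hXne.card_pos M
  have h1 := avg X i (fun a => if SS ε a - p ∈ D then 1 else 0)
  have h2 : ∑ a ∈ T, (if SS ε a - p ∈ D then 1 else 0) = (T.filter (fun a => SS ε a - p ∈ D)).card :=
    (card_filter _ _).symm
  rw [← hT, h2] at h1
  obtain ⟨a, ha, ha2⟩ := ex_avg T hTne (fun a => ∑ x ∈ X,
    (if SS ε (Function.update a i x) - p ∈ D then 1 else 0)) X.card q (by
      rw [h1, hTc]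
      calc X.card * X.card ^ M ≤ X.card * (q * (T.filter (fun a => SS ε a - p ∈ D)).card) :=
            Nat.mul_le_mul_left _ h
        _ = q * (X.card * (T.filter (fun a => SS ε a - p ∈ D)).card) := by ring)
  rw [← card_filter] at ha2
  set c : Γ := SS ε a - ((ε i : SignType) : ℤ) • a i - p with hc
  refine ⟨X.filter (fun x => SS ε (Function.update a i x) - p ∈ D),
    -(((ε i : SignType) : ℤ) • c), filter_subset _ _, ha2, ?_⟩
  intro b hb
  have hb2 := (mem_filter.1 hb).2
  rw [SS_update] at hb2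
  have e1 : SS ε a + ((ε i : SignType) : ℤ) • (b - a i) - p = ((ε i : SignType) : ℤ) • b + c := by
    rw [hc, smul_sub]; abel
  rw [e1] at hb2
  have e2 : b - -(((ε i : SignType) : ℤ) • c) =
      ((ε i : SignType) : ℤ) • (((ε i : SignType) : ℤ) • b + c) := by
    rw [smul_add, sg_sq _ hi, sub_neg_eq_add]
  rw [e2]
  generalize ((ε i : SignType) : ℤ) • b + c = y at hb2 ⊢
  generalize hs : ε i = σ at hi ⊢
  cases σ with
  | zero => exact absurd rfl hi
  | pos => simpa using hb2
  | neg =>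
    have : -y ∈ D := by rw [← hD]; exact neg_mem_neg hb2
    simpa using this

/-- CASE X -/
lemma caseX {Γ : Type} [AddCommGroup Γ] [DecidableEq Γ] {M : ℕ} (X : Finset Γ)
    (hX : -X = X) (hXne : X.Nonempty) (ε : Fin M → SignType) (i j l : Fin M) (hi : ε i ≠ 0)
    (hj : ε j ≠ 0) (hl : ε l ≠ 0) (hij : i ≠ j) (hil : i ≠ l) (hjl : j ≠ l) (q : ℕ)
    (h : X.card ^ M ≤ q * ((Fintype.piFinset (fun _ : Fin M => X)).filter
      (fun a => SS ε a ∈ X)).card) :
    X.card ^ 3 ≤ q * X.addEnergy X := by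
  classical
  set T := Fintype.piFinset (fun _ : Fin M => X) with hT
  have hTc : T.card = X.card ^ M := by simp [hT]
  have hTne : T.Nonempty := by
    rw [← card_pos, hTc]; exact pow_pos hXne.card_pos M
  set f : (Fin M → Γ) → ℕ := fun a => if SS ε a ∈ X then 1 else 0 with hf
  set F1 : (Fin M → Γ) → ℕ := fun a => ∑ x ∈ X, f (Function.update a i (((ε i : SignType) : ℤ) • x))
    with hF1
  set F2 : (Fin M → Γ) → ℕ := fun a => ∑ y ∈ X, F1 (Function.update a j (((ε j : SignType) : ℤ) • y))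
    with hF2
  set F3 : (Fin M → Γ) → ℕ := fun a => ∑ z ∈ X, F2 (Function.update a l (((ε l : SignType) : ℤ) • z))
    with hF3
  have e0 : ∑ a ∈ T, f a = (T.filter (fun a => SS ε a ∈ X)).card := (card_filter _ _).symm
  have e1 : ∑ a ∈ T, F1 a = X.card * ∑ a ∈ T, f a := avg_s X hX i f (ε i) hi
  have e2 : ∑ a ∈ T, F2 a = X.card * ∑ a ∈ T, F1 a := avg_s X hX j F1 (ε j) hj
  have e3 : ∑ a ∈ T, F3 a = X.card * ∑ a ∈ T, F2 a := avg_s X hX l F2 (ε l) hl
  obtain ⟨a, ha, ha2⟩ := ex_avg T hTne F3 (X.card ^ 3) q (by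
    rw [e3, e2, e1, e0, hTc]
    calc X.card ^ 3 * X.card ^ M ≤ X.card ^ 3 * (q * (T.filter (fun a => SS ε a ∈ X)).card) :=
          Nat.mul_le_mul_left _ h
      _ = q * (X.card * (X.card * (X.card * (T.filter (fun a => SS ε a ∈ X)).card))) := by ring)
  set t : Γ := SS ε a - ((ε i : SignType) : ℤ) • a i - ((ε j : SignType) : ℤ) • a j -
    ((ε l : SignType) : ℤ) • a l with ht
  have key : ∀ x y z : Γ, SS ε (Function.update (Function.update (Function.update a l
      (((ε l : SignType) : ℤ) • z)) j (((ε j : SignType) : ℤ) • y)) i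
      (((ε i : SignType) : ℤ) • x)) = z + y + x + t := by
    intro x y z
    rw [SS_update, SS_update, SS_update]
    rw [Function.update_of_ne hij, Function.update_of_ne hil, Function.update_of_ne hjl]
    simp only [smul_sub, sg_sq _ hi, sg_sq _ hj, sg_sq _ hl]
    rw [ht]
    abel
  refine energy X t q ?_
  refine ha2.trans (Nat.mul_le_mul_left _ (le_of_eq ?_))
  rw [hF3, hF2, hF1, hf, card_filter, sum_product, sum_product]
  simp only [key]

theorem pick (M K k L : ℕ) : ∃ c K' k' : ℕ, ∀ (Γ : Type) [AddCommGroup Γ] [Fintype Γ]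
    [DecidableEq Γ] (A V : Finset Γ), -A = A → -V = V → 0 ∈ V →
    (∀ x ∈ A, ∀ y ∈ A, x + y ∉ A) → P M A {0} → Cov A K k L V → (A \ V).Nonempty →
    ∃ (B B₀ : Finset Γ) (g : Γ), B ⊆ A \ V ∧ B.Nonempty ∧ (A \ V).card ≤ c * B.card ∧
      B₀ ⊆ A ∧ B₀.Nonempty ∧ (B₀ - B₀).card ≤ K' * B₀.card ∧
      ∀ b ∈ B, b - g ∈ ks k' (B₀ - B₀) := by
  classical
  set Q : ℕ := Fintype.card ((Fin M → SignType) × Bool) with hQ
  refine ⟨8 * Q + Q * L, K + 2 ^ 22 * Q ^ 10, k + 1, ?_⟩
  intro Γ _ _ _ A V hA hV h0V hsf hP hcov hne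
  set X := A \ V with hXdef
  have hX : -X = X := by
    rw [hXdef]
    ext x
    rw [mem_neg', mem_sdiff, mem_sdiff]
    have a1 : -x ∈ A ↔ x ∈ A := by
      conv_rhs => rw [← hA]
      rw [mem_neg']
    have a2 : -x ∈ V ↔ x ∈ V := by
      conv_rhs => rw [← hV]
      rw [mem_neg']
    rw [a1, a2]
  set T := Fintype.piFinset (fun _ : Fin M => X) with hT
  have hTc : T.card = X.card ^ M := by simp [hT]
  have hTpos : 0 < T.card := by rw [hTc]; exact pow_pos hne.card_pos M
  -- first pigeonhole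
  obtain ⟨⟨ε, b⟩, hεb⟩ := pig T (fun (i : (Fin M → SignType) × Bool) (a : Fin M → Γ) =>
    2 ≤ (univ.filter (fun j => i.1 j ≠ 0)).card ∧ if i.2 then SS i.1 a ∈ V else SS i.1 a ∈ X) (by
      intro a ha
      rw [hT, Fintype.mem_piFinset] at ha
      obtain ⟨ε, h1, h2⟩ := hP a (fun i => by
        have := ha i
        rw [hXdef, mem_sdiff] at this
        refine ⟨this.1, fun h => this.2 ?_⟩
        rw [mem_singleton] at h
        rw [h]; exact h0V)
      by_cases hv : SS ε a ∈ V
      · exact ⟨(ε, true), h1, by simpa using hv⟩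
      · refine ⟨(ε, false), h1, ?_⟩
        have h3 : SS ε a ∈ A ∪ {0} := h2
        rw [mem_union, mem_singleton] at h3
        rcases h3 with h3 | h3
        · simpa [hXdef] using And.intro h3 hv
        · exact absurd (h3 ▸ h0V) hv)
  rw [← hQ] at hεb
  have hfne : (T.filter (fun a => 2 ≤ (univ.filter (fun j => ε j ≠ 0)).card ∧
      if b = true then SS ε a ∈ V else SS ε a ∈ X)).Nonempty := by
    rw [← card_pos]
    by_contra hc
    have hz : (T.filter (fun a => 2 ≤ (univ.filter (fun j => ε j ≠ 0)).card ∧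
      if b = true then SS ε a ∈ V else SS ε a ∈ X)).card = 0 := by omega
    have : T.card ≤ Q * 0 := by
      rw [← hz]; exact hεb
    omega
  obtain ⟨a₀, ha₀⟩ := hfne
  rw [mem_filter] at ha₀
  have hsupp := ha₀.2.1
  have hQ1 : 1 ≤ Q := by
    rw [hQ]; exact Fintype.card_pos
  cases b with
  | true =>
    -- CASE V
    obtain ⟨s, hs1, hs2, hs3⟩ := hcov
    have hle : T.card ≤ Q * (T.filter (fun a => SS ε a ∈ V)).card := by
      refine hεb.trans (Nat.mul_le_mul_left _ (card_le_card ?_))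
      intro a ha
      rw [mem_filter] at ha ⊢
      exact ⟨ha.1, by simpa using ha.2.2⟩
    have hsne : Nonempty s := by
      have : SS ε a₀ ∈ V := by simpa using ha₀.2.2
      obtain ⟨p, hp, _⟩ := hs3 _ this
      exact ⟨⟨p, hp⟩⟩
    obtain ⟨⟨p, hp⟩, hpp⟩ := pig (ι := s) (T.filter (fun a => SS ε a ∈ V))
      (fun p a => SS ε a - p.1.1 ∈ ks k (p.1.2 - p.1.2)) (by
        intro a ha
        rw [mem_filter] at ha
        obtain ⟨p, hp, hp2⟩ := hs3 _ ha.2
        exact ⟨⟨p, hp⟩, hp2⟩)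
    rw [Fintype.card_coe] at hpp
    obtain ⟨hp1, hp2, hp3⟩ := hs2 p hp
    have hD : -(ks k (p.2 - p.2)) = ks k (p.2 - p.2) := ks_neg (sub_neg_self _) k
    -- an index in the support
    have hnz : (univ.filter (fun j => ε j ≠ 0)).Nonempty := by
      rw [← card_pos]; omega
    obtain ⟨i, hi⟩ := hnz
    rw [mem_filter] at hi
    have hmain : X.card ^ M ≤ (Q * L) * (T.filter
        (fun a => SS ε a - p.1 ∈ ks k (p.2 - p.2))).card := by
      rw [← hTc]
      have e1 : ((T.filter (fun a => SS ε a ∈ V)).filter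
          (fun a => SS ε a - p.1 ∈ ks k (p.2 - p.2))).card ≤ (T.filter
          (fun a => SS ε a - p.1 ∈ ks k (p.2 - p.2))).card := by
        apply card_le_card
        intro a ha
        rw [mem_filter, mem_filter] at ha
        rw [mem_filter]
        exact ⟨ha.1.1, ha.2⟩
      calc T.card ≤ Q * (T.filter (fun a => SS ε a ∈ V)).card := hle
        _ ≤ Q * (s.card * ((T.filter (fun a => SS ε a ∈ V)).filter
          (fun a => SS ε a - p.1 ∈ ks k (p.2 - p.2))).card) := Nat.mul_le_mul_left _ hpp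
        _ ≤ Q * (L * (T.filter (fun a => SS ε a - p.1 ∈ ks k (p.2 - p.2))).card) :=
          Nat.mul_le_mul_left _ (Nat.mul_le_mul hs1 e1)
        _ = _ := by ring
    obtain ⟨B, g, hB1, hB2, hB3⟩ := caseV X hne ε i hi.2 _ hD p.1 (Q * L) hmain
    have hBne : B.Nonempty := by
      rw [← card_pos]
      by_contra hc
      have hz : B.card = 0 := by omega
      rw [hz, mul_zero] at hB2
      have := hne.card_pos
      omega
    refine ⟨B, p.2, g, hB1, hBne, hB2.trans (Nat.mul_le_mul_right _ (by omega)), hp1, hp2,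
      hp3.trans (Nat.mul_le_mul_right _ (by omega)), fun x hx => ?_⟩
    exact ks_mono (zero_mem_sub_self hp2) (by omega) (hB3 x hx)
  | false =>
    -- CASE X
    have hle : X.card ^ M ≤ Q * (T.filter (fun a => SS ε a ∈ X)).card := by
      rw [← hTc]
      refine hεb.trans (Nat.mul_le_mul_left _ (card_le_card ?_))
      intro a ha
      rw [mem_filter] at ha ⊢
      exact ⟨ha.1, by simpa using ha.2.2⟩
    have hX0 : SS ε a₀ ∈ X := by simpa using ha₀.2.2
    have hXA : X ⊆ A := sdiff_subset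
    have ha₁ : ∀ i, a₀ i ∈ X := by
      have := ha₀.1
      rw [hT, Fintype.mem_piFinset] at this
      exact this
    have hthree : 2 < (univ.filter (fun j => ε j ≠ 0)).card := by
      rcases hsupp.lt_or_eq with h | h
      · exact h
      · exfalso
        obtain ⟨i, j, hij, hs⟩ := card_eq_two.1 h.symm
        have e1 : SS ε a₀ = ((ε i : SignType) : ℤ) • a₀ i + ((ε j : SignType) : ℤ) • a₀ j := by
          unfold SS
          rw [← sum_filter_add_sum_filter_not univ (fun j => ε j ≠ 0), hs, sum_pair hij]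
          have : ∑ x ∈ univ.filter (fun x => ¬ ε x ≠ 0), ((ε x : SignType) : ℤ) • a₀ x = 0 := by
            refine sum_eq_zero fun x hx => ?_
            rw [mem_filter, not_not] at hx
            rw [hx.2]; simp
          rw [this, add_zero]
        have e2 : ∀ (σ : SignType), σ ≠ 0 → ∀ x ∈ A, (σ : ℤ) • x ∈ A := by
          intro σ hσ x hx
          cases σ with
          | zero => exact absurd rfl hσ
          | pos => simpa using hx
          | neg =>
            have : -x ∈ A := by rw [← hA]; exact neg_mem_neg hx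
            simpa using this
        have hi : i ∈ univ.filter (fun j => ε j ≠ 0) := by rw [hs]; simp
        have hj : j ∈ univ.filter (fun j => ε j ≠ 0) := by rw [hs]; simp
        rw [mem_filter] at hi hj
        have h3 := hsf _ (e2 (ε i) hi.2 _ (hXA (ha₁ i))) _ (e2 (ε j) hj.2 _ (hXA (ha₁ j)))
        rw [← e1] at h3
        exact h3 (hXA hX0)
    obtain ⟨i, j, l, hi, hj, hl, hij, hil, hjl⟩ := two_lt_card_iff.1 hthree
    rw [mem_filter] at hi hj hl
    have hE := caseX X hX hne ε i j l hi.2 hj.2 hl.2 hij hil hjl Q hle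
    obtain ⟨B, hB1, hB2, hB3, hB4⟩ := Pool.Agent.H217R3.AK.bsg X hne (Q : ℝ)
      (by exact_mod_cast hQ1) (by exact_mod_cast hE)
    have hB3' : X.card ≤ 8 * Q * B.card := by exact_mod_cast hB3
    have hB4' : (B - B).card ≤ 2 ^ 22 * Q ^ 10 * B.card := by exact_mod_cast hB4
    obtain ⟨g, hg⟩ := hB2
    refine ⟨B, B, g, hB1, ⟨g, hg⟩, hB3'.trans (Nat.mul_le_mul_right _ (by omega)),
      hB1.trans hXA, ⟨g, hg⟩, hB4'.trans (Nat.mul_le_mul_right _ (by omega)), fun x hx => ?_⟩
    have h1 : x - g ∈ ks 1 (B - B) := by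
      rw [ks_one]; exact sub_mem_sub hx hg
    exact ks_mono (zero_mem_sub_self ⟨g, hg⟩) (by omega) h1

end Pool.Agent.TH879.CG
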